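import Pool.Agent.Y778.SL.Stm

set_option autoImplicit false

/-!
# `K₀` of the group ring of a finite group over a semilocal ring is detected at the residue fields
-/

open Matrix

namespace Pool.Agent.Y155.SL

open MonoidAlgebra Pool.Agent.Y778.NK Pool.Agent.Y778.SL

/-! ### adding an identity matrix -/

section Enlarge

variable {B : Type} [Ring B] {ι κ : Type} [Fintype ι] [DecidableEq ι] [Fintype κ] [DecidableEq κ]

/-- associativity of sums -/
def asq (ι : Type) (N M : ℕ) : (ι ⊕ Fin N) ⊕ Fin M ≃ ι ⊕ Fin (N + M) :=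
  (Equiv.sumAssoc ι (Fin N) (Fin M)).trans (Equiv.sumCongr (Equiv.refl ι) finSumFinEquiv)

theorem asq_blocks (e : Matrix ι ι B) (N M : ℕ) :
    Matrix.reindex (asq ι N M) (asq ι N M)
      (fromBlocks (fromBlocks e 0 0 (1 : Matrix (Fin N) (Fin N) B)) 0 0
        (1 : Matrix (Fin M) (Fin M) B)) =
      fromBlocks e 0 0 (1 : Matrix (Fin (N + M)) (Fin (N + M)) B) := by
  refine (Equiv.apply_eq_iff_eq_symm_apply _).2 ?_
  rw [Matrix.reindex_symm]
  ext i j
  rcases i with (i | i) | i <;> rcases j with (j | j) | j <;>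
    simp [asq, Matrix.one_apply]
  · intro h
    have h1 := congrArg Fin.val h
    rw [Fin.val_castAdd, Fin.val_natAdd] at h1
    omega
  · intro h
    have h1 := congrArg Fin.val h
    rw [Fin.val_castAdd, Fin.val_natAdd] at h1
    omega

theorem enlarge {e : Matrix ι ι B} {f : Matrix κ κ B} {N : ℕ}
    (h : ∃ (u : Matrix (ι ⊕ Fin N) (κ ⊕ Fin N) B) (v : Matrix (κ ⊕ Fin N) (ι ⊕ Fin N) B),
      u * v = fromBlocks e 0 0 1 ∧ v * u = fromBlocks f 0 0 1) (M : ℕ) :
    ∃ (u : Matrix (ι ⊕ Fin (N + M)) (κ ⊕ Fin (N + M)) B)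
      (v : Matrix (κ ⊕ Fin (N + M)) (ι ⊕ Fin (N + M)) B),
      u * v = fromBlocks e 0 0 1 ∧ v * u = fromBlocks f 0 0 1 := by
  obtain ⟨u, v, h1, h2⟩ := h
  refine ⟨Matrix.reindex (asq ι N M) (asq κ N M) (fromBlocks u 0 0 1),
    Matrix.reindex (asq κ N M) (asq ι N M) (fromBlocks v 0 0 1), ?_, ?_⟩
  · rw [← asq_blocks, ← h1, Matrix.reindex_apply, Matrix.reindex_apply, Matrix.reindex_apply,
      Matrix.submatrix_mul_equiv, fromBlocks_multiply]
    simp
  · rw [← asq_blocks, ← h2, Matrix.reindex_apply, Matrix.reindex_apply, Matrix.reindex_apply,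
      Matrix.submatrix_mul_equiv, fromBlocks_multiply]
    simp

end Enlarge

section Semilocal

variable {R : Type} [CommRing R] {H : Type} [Group H] [Finite H] {ι κ : Type} [Fintype ι]
  [DecidableEq ι] [Fintype κ] [DecidableEq κ]

/-- reduction at a maximal ideal -/
noncomputable abbrev rd (H : Type) [Group H] (m : MaximalSpectrum R) :
    MonoidAlgebra R H →+* MonoidAlgebra (R ⧸ m.asIdeal) H :=
  mapRingHom H (Ideal.Quotient.mk m.asIdeal)

omit [Finite H] [Group H] in
theorem finsupp_mem (J : Ideal R) (f : H →₀ R) (hf : ∀ h, f h ∈ J) :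
    f ∈ J • (⊤ : Submodule R (H →₀ R)) := by
  rw [← Finsupp.sum_single f]
  refine Submodule.sum_mem _ fun h _ => ?_
  have e : Finsupp.single h (f h) = f h • Finsupp.single h (1 : R) := by simp
  rw [e]
  exact Submodule.smul_mem_smul (hf h) trivial

omit [Finite H] in
theorem mem_smul_top (J : Ideal R) (y : Matrix ι ι (MonoidAlgebra R H))
    (hy : ∀ i j h, (y i j).coeff h ∈ J) :
    y ∈ J • (⊤ : Submodule R (Matrix ι ι (MonoidAlgebra R H))) := by
  rw [Matrix.matrix_eq_sum_single y]
  refine Submodule.sum_mem _ fun i _ => Submodule.sum_mem _ fun j _ => ?_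
  let L : (H →₀ R) →ₗ[R] Matrix ι ι (MonoidAlgebra R H) :=
    (Matrix.singleLinearMap R i j).comp (coeffLinearEquiv (S := R) (M := H) R).symm.toLinearMap
  have h1 : Matrix.single i j (y i j) = L (y i j).coeff := rfl
  rw [h1]
  have h2 := Submodule.mem_map_of_mem (f := L) (finsupp_mem J (y i j).coeff (hy i j))
  rw [Submodule.map_smul''] at h2
  exact Submodule.smul_mono le_rfl le_top h2

theorem finite_mat : Module.Finite R (Matrix ι ι (MonoidAlgebra R H)) := by
  have h1 : Module.Finite R (MonoidAlgebra R H) :=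
    Module.Finite.equiv (coeffLinearEquiv (S := R) (M := H) R).symm
  have h2 : Module.Finite R (ι → ι → MonoidAlgebra R H) := inferInstance
  exact h2

/-- A matrix which is congruent to `1` at all maximal ideals is invertible. -/
theorem isUnit_of_one {w : Matrix ι ι (MonoidAlgebra R H)}
    (hw : ∀ m : MaximalSpectrum R, w.map (rd H m) = 1) :
    ∃ w' : Matrix ι ι (MonoidAlgebra R H), w * w' = 1 ∧ w' * w = 1 := by
  have hfin := finite_mat (R := R) (H := H) (ι := ι)
  have hJ : 1 - w ∈ (Ideal.jacobson (⊥ : Ideal R)) •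
      (⊤ : Submodule R (Matrix ι ι (MonoidAlgebra R H))) := by
    apply mem_smul_top
    intro i j h
    rw [Ideal.jacobson, Ideal.mem_sInf]
    rintro m ⟨-, hm⟩
    rw [← Ideal.Quotient.eq_zero_iff_mem]
    have h1 : (1 - w).map (rd H ⟨m, hm⟩) = 0 := by
      rw [Matrix.map_sub _ (fun a b => map_sub _ a b), hw, Matrix.map_one _ (map_zero _)
        (map_one _), sub_self]
    have h2 : ((((1 - w).map (rd H ⟨m, hm⟩)) i j)).coeff h = 0 := by
      rw [h1]
      simp
    rw [Matrix.map_apply, coeff_mapRingHom] at h2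
    exact h2
  have hsurj : Function.Surjective (LinearMap.mulLeft R w) := by
    rw [← LinearMap.range_eq_top, ← top_le_iff]
    refine Submodule.le_of_le_smul_of_le_jacobson_bot (I := Ideal.jacobson (⊥ : Ideal R))
      Module.Finite.fg_top le_rfl ?_
    intro X _
    have e : X = w * X + (1 - w) * X := by rw [sub_mul, one_mul]; abel
    rw [e]
    refine Submodule.add_mem_sup ⟨X, rfl⟩ ?_
    have h2 := Submodule.mem_map_of_mem (f := LinearMap.mulRight R X) hJ
    rw [Submodule.map_smul''] at h2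
    exact Submodule.smul_mono le_rfl le_top h2
  obtain ⟨X, hX⟩ := hsurj 1
  have hX : w * X = 1 := hX
  have hinj := OrzechProperty.injective_of_surjective_endomorphism _ hsurj
  refine ⟨X, hX, hinj ?_⟩
  show w * (X * w) = w * 1
  rw [← mul_assoc, hX, one_mul, mul_one]

/-- Matrices over the group ring can be prescribed modulo all maximal ideals. -/
theorem lift_matrix [Finite (MaximalSpectrum R)]
    (W : ∀ m : MaximalSpectrum R, Matrix ι κ (MonoidAlgebra (R ⧸ m.asIdeal) H)) :
    ∃ w : Matrix ι κ (MonoidAlgebra R H), ∀ m, w.map (rd H m) = W m := by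
  have hcop : Pairwise (Function.onFun IsCoprime fun m : MaximalSpectrum R => m.asIdeal) := by
    intro m m' hne
    rw [Function.onFun, Ideal.isCoprime_iff_sup_eq]
    exact Ideal.IsMaximal.coprime_of_ne m.isMaximal m'.isMaximal
      (fun h => hne (MaximalSpectrum.ext h))
  choose r hr using fun (i : ι) (j : κ) (h : H) =>
    Ideal.pi_quotient_surjective hcop (fun m => (W m i j).coeff h)
  refine ⟨fun i j => ofCoeff (Finsupp.equivFunOnFinite.symm (r i j)), fun m => ?_⟩
  ext i j h
  rw [Matrix.map_apply, coeff_mapRingHom]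
  exact hr i j h m

/-- The lifting argument. -/
theorem core {e : Matrix ι ι (MonoidAlgebra R H)} (he : e * e = e)
    {f : Matrix κ κ (MonoidAlgebra R H)} (hf : f * f = f) (u0 : Matrix ι κ (MonoidAlgebra R H))
    (v0 : Matrix κ ι (MonoidAlgebra R H))
    (h1 : ∀ m : MaximalSpectrum R, u0.map (rd H m) * v0.map (rd H m) = e.map (rd H m))
    (h2 : ∀ m : MaximalSpectrum R, v0.map (rd H m) * u0.map (rd H m) = f.map (rd H m)) :
    cl0 e he = cl0 f hf := by
  have hmap1 : ∀ {μ : Type} [Fintype μ] [DecidableEq μ] (m : MaximalSpectrum R),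
      (1 : Matrix μ μ (MonoidAlgebra R H)).map (rd H m) = 1 := fun m =>
    Matrix.map_one _ (map_zero _) (map_one _)
  set u : Matrix ι κ (MonoidAlgebra R H) := e * u0 * f with hu
  set v : Matrix κ ι (MonoidAlgebra R H) := f * v0 * e with hv
  have eu : e * u = u := by rw [hu, ← Matrix.mul_assoc, ← Matrix.mul_assoc, he]
  have uf : u * f = u := by rw [hu, Matrix.mul_assoc, hf]
  have fv : f * v = v := by rw [hv, ← Matrix.mul_assoc, ← Matrix.mul_assoc, hf]
  have ve : v * e = v := by rw [hv, Matrix.mul_assoc, he]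
  have huv : ∀ m : MaximalSpectrum R, u.map (rd H m) * v.map (rd H m) = e.map (rd H m) := by
    intro m
    have hee := map_idem (rd H m) he
    have hff := map_idem (rd H m) hf
    rw [hu, hv, Matrix.map_mul, Matrix.map_mul, Matrix.map_mul, Matrix.map_mul]
    have a1 := h1 m
    have a2 := h2 m
    generalize e.map (rd H m) = E at *
    generalize f.map (rd H m) = F at *
    generalize u0.map (rd H m) = U at *
    generalize v0.map (rd H m) = V at *
    calc E * U * F * (F * V * E) = E * U * (F * F) * V * E := by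
          simp only [Matrix.mul_assoc]
      _ = E * U * (V * U) * V * E := by rw [hff, a2]
      _ = E * (U * V) * (U * V) * E := by simp only [Matrix.mul_assoc]
      _ = E := by rw [a1, hee, hee, hee]
  have hvu : ∀ m : MaximalSpectrum R, v.map (rd H m) * u.map (rd H m) = f.map (rd H m) := by
    intro m
    have hee := map_idem (rd H m) he
    have hff := map_idem (rd H m) hf
    rw [hu, hv, Matrix.map_mul, Matrix.map_mul, Matrix.map_mul, Matrix.map_mul]
    have a1 := h1 m
    have a2 := h2 m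
    generalize e.map (rd H m) = E at *
    generalize f.map (rd H m) = F at *
    generalize u0.map (rd H m) = U at *
    generalize v0.map (rd H m) = V at *
    calc F * V * E * (E * U * F) = F * V * (E * E) * U * F := by
          simp only [Matrix.mul_assoc]
      _ = F * V * (U * V) * U * F := by rw [hee, a1]
      _ = F * (V * U) * (V * U) * F := by simp only [Matrix.mul_assoc]
      _ = F := by rw [a2, hff, hff, hff]
  obtain ⟨w', hw1, hw2⟩ := isUnit_of_one (w := u * v + (1 - e)) (fun m => by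
    rw [Matrix.map_add _ (fun a b => map_add _ a b), Matrix.map_mul, huv,
      Matrix.map_sub _ (fun a b => map_sub _ a b), hmap1]
    abel)
  have ew : e * (u * v + (1 - e)) = u * v := by
    rw [mul_add, ← Matrix.mul_assoc, eu, mul_sub, mul_one, he, sub_self, add_zero]
  have hmw : ∀ m : MaximalSpectrum R, w'.map (rd H m) = 1 := by
    intro m
    have h3 := congrArg (fun M => Matrix.map M (rd H m)) hw1
    simp only [Matrix.map_mul, hmap1] at h3
    rw [Matrix.map_add _ (fun a b => map_add _ a b), Matrix.map_mul, huv,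
      Matrix.map_sub _ (fun a b => map_sub _ a b), hmap1, add_sub_cancel, one_mul] at h3
    exact h3
  have huv1 : u * (v * w') = e := by
    rw [← Matrix.mul_assoc, ← ew, mul_assoc, hw1, mul_one]
  set p : Matrix κ κ (MonoidAlgebra R H) := v * w' * u with hp
  have pp : p * p = p := by
    calc v * w' * u * (v * w' * u) = v * w' * (u * (v * w')) * u := by
          simp only [Matrix.mul_assoc]
      _ = v * w' * (e * u) := by rw [huv1, Matrix.mul_assoc (v * w')]
      _ = v * w' * u := by rw [eu]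
  have fp : f * p = p := by
    calc f * (v * w' * u) = f * v * w' * u := by simp only [Matrix.mul_assoc]
      _ = v * w' * u := by rw [fv]
  have pf : p * f = p := by
    rw [hp, Matrix.mul_assoc, uf]
  obtain ⟨z', hz1, -⟩ := isUnit_of_one (w := 1 - (f - p)) (fun m => by
    rw [Matrix.map_sub _ (fun a b => map_sub _ a b), Matrix.map_sub _ (fun a b => map_sub _ a b),
      hmap1, hp, Matrix.map_mul, Matrix.map_mul, hmw, Matrix.mul_one, hvu, sub_self, sub_zero])
  have hz : (1 - (f - p)) * (1 - (f - p)) = 1 - (f - p) := by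
    have h3 : (f - p) * (f - p) = f - p := by
      rw [sub_mul, mul_sub, mul_sub, hf, fp, pf, pp]
      abel
    rw [sub_mul, one_mul, mul_sub, mul_one, h3, sub_self, sub_zero]
  have hz2 : 1 - (f - p) = 1 := by
    calc 1 - (f - p) = (1 - (f - p)) * ((1 - (f - p)) * z') := by rw [hz1, mul_one]
      _ = (1 - (f - p)) * z' := by rw [← mul_assoc, hz]
      _ = 1 := hz1
  have hfp : p = f := by
    have h3 : f - p = 0 := by
      have := congrArg (fun M => 1 - M) hz2
      simpa using this
    exact (sub_eq_zero.1 h3).symm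
  exact cl0_swap he hf u (v * w') huv1 hfp

end Semilocal

theorem inj (hSE : S_SE) : S_Inj := by
  intro R _ _ H _ _ x hx
  obtain ⟨m₀, n₀, e, he, f, hf, rfl⟩ := K0_exists' x
  have h1 : ∀ m : MaximalSpectrum R, ∃ (N : ℕ) (u : Matrix (Fin m₀ ⊕ Fin N) (Fin n₀ ⊕ Fin N)
      (MonoidAlgebra (R ⧸ m.asIdeal) H)) (v : Matrix (Fin n₀ ⊕ Fin N) (Fin m₀ ⊕ Fin N)
      (MonoidAlgebra (R ⧸ m.asIdeal) H)),
      u * v = Matrix.fromBlocks (e.map (rd H m)) 0 0 1 ∧
      v * u = Matrix.fromBlocks (f.map (rd H m)) 0 0 1 := by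
    intro m
    have h2 := hx m
    rw [map_sub, K0map_cl0, K0map_cl0, sub_eq_zero] at h2
    exact hSE _ _ _ _ _ _ _ h2
  choose N hN using h1
  cases nonempty_fintype (MaximalSpectrum R)
  set M : ℕ := ∑ m, N m with hM
  have h3 : ∀ m : MaximalSpectrum R, ∃ (u : Matrix (Fin m₀ ⊕ Fin M) (Fin n₀ ⊕ Fin M)
      (MonoidAlgebra (R ⧸ m.asIdeal) H)) (v : Matrix (Fin n₀ ⊕ Fin M) (Fin m₀ ⊕ Fin M)
      (MonoidAlgebra (R ⧸ m.asIdeal) H)),
      u * v = Matrix.fromBlocks (e.map (rd H m)) 0 0 1 ∧
      v * u = Matrix.fromBlocks (f.map (rd H m)) 0 0 1 := by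
    intro m
    have hle : N m ≤ M := Finset.single_le_sum (f := N) (fun _ _ => Nat.zero_le _)
      (Finset.mem_univ m)
    obtain ⟨k, hk⟩ := Nat.exists_eq_add_of_le hle
    rw [hk]
    exact enlarge (hN m) k
  choose u v huv hvu using h3
  obtain ⟨u0, hu0⟩ := lift_matrix u
  obtain ⟨v0, hv0⟩ := lift_matrix v
  have hmb : ∀ {μ : Type} [Fintype μ] [DecidableEq μ] (g : Matrix μ μ (MonoidAlgebra R H))
      (m : MaximalSpectrum R), (fromBlocks g 0 0 (1 : Matrix (Fin M) (Fin M)
        (MonoidAlgebra R H))).map (rd H m) = fromBlocks (g.map (rd H m)) 0 0 1 := by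
    intro μ _ _ g m
    rw [fromBlocks_map, Matrix.map_one _ (map_zero _) (map_one _), Matrix.map_zero _ (map_zero _),
      Matrix.map_zero _ (map_zero _)]
  have h4 := core (blocks_idem he (mul_one (1 : Matrix (Fin M) (Fin M) (MonoidAlgebra R H))))
    (blocks_idem hf (mul_one (1 : Matrix (Fin M) (Fin M) (MonoidAlgebra R H)))) u0 v0
    (fun m => by rw [hu0, hv0, hmb, huv]) (fun m => by rw [hu0, hv0, hmb, hvu])
  rw [cl0_blocks he (mul_one _), cl0_blocks hf (mul_one _)] at h4
  rw [add_right_cancel h4, sub_self]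

end Pool.Agent.Y155.SL
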